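import Pool.Agent.W805.LR.Stm

set_option autoImplicit false

namespace Pool.Agent.W32.LR

open Finset Equiv Filter Topology NormedSpace
open Pool.Agent.W805.LR

/-! ## A product formula in Banach algebras -/

section banach

variable {A : Type} [NormedRing A] [NormedAlgebra ℝ A] [NormOneClass A] [CompleteSpace A]

omit [NormedAlgebra ℝ A] [CompleteSpace A] in
lemma norm_pow_sub_pow (x y : A) (K : ℝ) (hx : ‖x‖ ≤ K) (hy : ‖y‖ ≤ K) (h1 : 1 ≤ K) (n : ℕ) :
    ‖x ^ n - y ^ n‖ ≤ n * ‖x - y‖ * K ^ n := by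
  have hK0 : 0 ≤ K := by linarith
  induction n with
  | zero => simp
  | succ n ih =>
    have e : x ^ (n + 1) - y ^ (n + 1) = x ^ n * (x - y) + (x ^ n - y ^ n) * y := by
      rw [pow_succ, pow_succ]; noncomm_ring
    rw [e]
    have hxn : ‖x ^ n‖ ≤ K ^ n := (norm_pow_le x n).trans (pow_le_pow_left₀ (norm_nonneg _) hx n)
    have hKn : (0:ℝ) ≤ K ^ n := pow_nonneg hK0 n
    have hxy : 0 ≤ ‖x - y‖ := norm_nonneg _
    calc ‖x ^ n * (x - y) + (x ^ n - y ^ n) * y‖
        ≤ ‖x ^ n * (x - y)‖ + ‖(x ^ n - y ^ n) * y‖ := norm_add_le _ _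
      _ ≤ K ^ n * ‖x - y‖ + (n * ‖x - y‖ * K ^ n) * K := by
          refine add_le_add ((norm_mul_le _ _).trans (mul_le_mul_of_nonneg_right hxn hxy))
            ((norm_mul_le _ _).trans (mul_le_mul ih hy (norm_nonneg _) ?_))
          positivity
      _ ≤ (K ^ n * K) * ‖x - y‖ + (n * ‖x - y‖ * K ^ n) * K := by
          gcongr
          nlinarith [mul_nonneg hKn (sub_nonneg.2 h1)]
      _ = ((n + 1 : ℕ) : ℝ) * ‖x - y‖ * K ^ (n + 1) := by push_cast; ring

/-- If `M (x M - 1) → S` then `(x M) ^ M → exp S`. -/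
lemma tendsto_pow_exp (x : ℕ → A) (S : A)
    (h : Tendsto (fun M : ℕ => (M : ℝ) • (x M - 1)) atTop (𝓝 S)) :
    Tendsto (fun M : ℕ => x M ^ M) atTop (𝓝 (exp S)) := by
  set y : ℕ → A := fun M => exp (((M : ℝ)⁻¹) • S) with hy
  have hy1 : Tendsto (fun M : ℕ => (M : ℝ) • (y M - 1)) atTop (𝓝 S) := by
    have hd : HasDerivAt (fun u : ℝ => exp (u • S)) S 0 := by
      have := hasDerivAt_exp_smul_const S (0 : ℝ)
      simpa using this
    have hs := hasDerivAt_iff_tendsto_slope_zero.1 hd
    have hi : Tendsto (fun M : ℕ => ((M : ℝ)⁻¹)) atTop (𝓝[≠] 0) := by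
      refine tendsto_nhdsWithin_iff.2 ⟨tendsto_inv_atTop_nhds_zero_nat, ?_⟩
      filter_upwards [eventually_gt_atTop 0] with M hM
      simp [hM.ne']
    have := hs.comp hi
    simpa [Function.comp_def, hy] using this
  have hyM : ∀ᶠ M : ℕ in atTop, y M ^ M = exp S := by
    filter_upwards [eventually_gt_atTop 0] with M hM
    rw [hy]
    simp only
    let _ : NormedAlgebra ℚ A := NormedAlgebra.restrictScalars ℚ ℝ A
    rw [← exp_nsmul]
    congr 1
    rw [← Nat.cast_smul_eq_nsmul ℝ, smul_smul, mul_inv_cancel₀ (by exact_mod_cast hM.ne'), one_smul]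
  obtain ⟨C, hC⟩ : ∃ C : ℝ, ∀ᶠ M : ℕ in atTop,
      ‖(M : ℝ) • (x M - 1)‖ ≤ C ∧ ‖(M : ℝ) • (y M - 1)‖ ≤ C := by
    refine ⟨‖S‖ + 1, ?_⟩
    have e1 := h.norm.eventually_le_const (show ‖S‖ < ‖S‖ + 1 by linarith)
    have e2 := hy1.norm.eventually_le_const (show ‖S‖ < ‖S‖ + 1 by linarith)
    filter_upwards [e1, e2] with M h1 h2 using ⟨h1, h2⟩
  have hdiff : Tendsto (fun M : ℕ => ‖(M : ℝ) • (x M - 1) - (M : ℝ) • (y M - 1)‖ * Real.exp C)
      atTop (𝓝 0) := by
    have := ((h.sub hy1).norm).mul_const (Real.exp C)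
    simpa using this
  have hz : Tendsto (fun M : ℕ => x M ^ M - y M ^ M) atTop (𝓝 0) := by
    refine squeeze_zero_norm' ?_ hdiff
    filter_upwards [hC, eventually_gt_atTop 0] with M hM hM0
    have hM' : (0 : ℝ) < M := by exact_mod_cast hM0
    have hCn : 0 ≤ C := (norm_nonneg _).trans hM.1
    have bd : ∀ z : A, ‖(M : ℝ) • (z - 1)‖ ≤ C → ‖z‖ ≤ 1 + C / M := by
      intro z hz
      rw [norm_smul, Real.norm_of_nonneg hM'.le] at hz
      have h2 : ‖z - 1‖ ≤ C / M := by rw [le_div_iff₀ hM']; linarith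
      calc ‖z‖ = ‖1 + (z - 1)‖ := by congr 1; abel
        _ ≤ ‖(1 : A)‖ + ‖z - 1‖ := norm_add_le _ _
        _ ≤ 1 + C / M := by rw [norm_one]; linarith
    have hk := norm_pow_sub_pow (x M) (y M) (1 + C / M) (bd _ hM.1) (bd _ hM.2)
      (by have := div_nonneg hCn hM'.le; linarith) M
    refine hk.trans ?_
    have e1 : (M : ℝ) • (x M - 1) - (M : ℝ) • (y M - 1) = (M : ℝ) • (x M - y M) := by
      rw [← smul_sub]; congr 1; abel
    rw [e1, norm_smul, Real.norm_of_nonneg hM'.le]
    have e2 : (1 + C / M) ^ M ≤ Real.exp C := by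
      have h3 : 1 + C / M ≤ Real.exp (C / M) := by
        have := Real.add_one_le_exp (C / M); linarith
      calc (1 + C / M) ^ M ≤ Real.exp (C / M) ^ M :=
            pow_le_pow_left₀ (by have := div_nonneg hCn hM'.le; linarith) h3 M
        _ = Real.exp C := by
            rw [← Real.exp_nat_mul]; congr 1; field_simp
    exact mul_le_mul_of_nonneg_left e2 (by positivity)
  have : Tendsto (fun M : ℕ => (x M ^ M - y M ^ M) + y M ^ M) atTop (𝓝 (0 + exp S)) := by
    refine hz.add ?_
    exact (tendsto_const_nhds (x := exp S)).congr' (by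
      filter_upwards [hyM] with M h using h.symm)
  simpa using this

lemma hasDerivAt_list_prod (l : List A) :
    HasDerivAt (fun u : ℝ => (l.map fun a => 1 + u • a).prod) l.sum 0 := by
  induction l with
  | nil => simpa using hasDerivAt_const (0 : ℝ) (1 : A)
  | cons a l ih =>
    have h1 : HasDerivAt (fun u : ℝ => 1 + u • a) a 0 := by
      have := (hasDerivAt_id (0 : ℝ)).smul_const a
      simpa using this.const_add 1
    have h2 : HasDerivAt (fun u : ℝ => (1 + u • a) * (l.map fun a => 1 + u • a).prod)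
        (a * (l.map fun a => 1 + (0:ℝ) • a).prod + (1 + (0:ℝ) • a) * l.sum) 0 := h1.mul ih
    simpa using h2

lemma tendsto_list_prod_pow (l : List A) :
    Tendsto (fun M : ℕ => ((l.map fun a => 1 + ((M : ℝ)⁻¹) • a).prod) ^ M) atTop
      (𝓝 (exp l.sum)) := by
  apply tendsto_pow_exp
  have hs := hasDerivAt_iff_tendsto_slope_zero.1 (hasDerivAt_list_prod l)
  have hi : Tendsto (fun M : ℕ => ((M : ℝ)⁻¹)) atTop (𝓝[≠] 0) := by
    refine tendsto_nhdsWithin_iff.2 ⟨tendsto_inv_atTop_nhds_zero_nat, ?_⟩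
    filter_upwards [eventually_gt_atTop 0] with M hM
    simp [hM.ne']
  have := hs.comp hi
  simpa [Function.comp_def] using this

end banach

/-! ## Expansion of an ordered product of sums -/

section expand

variable {A : Type} [Ring A] [Algebra ℝ A]

lemma ofFn_sum {O : Type} [Fintype O] (n : ℕ) (f : Fin n → O → A) :
    (List.ofFn fun i => ∑ o, f i o).prod =
      ∑ ω : Fin n → O, (List.ofFn fun i => f i (ω i)).prod := by
  induction n with
  | zero => simp
  | succ n ih =>
    rw [List.ofFn_succ, List.prod_cons, ih (fun i => f i.succ), Finset.sum_mul_sum,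
      ← (Fin.consEquiv (fun _ : Fin (n + 1) => O)).sum_comp, Fintype.sum_prod_type]
    refine Finset.sum_congr rfl fun o _ => Finset.sum_congr rfl fun ω _ => ?_
    rw [List.ofFn_succ, List.prod_cons]
    simp [Fin.consEquiv]

lemma list_sum {K O : Type} [Fintype K] [DecidableEq K] [Fintype O] (l : List K) (hl : l.Nodup)
    (hm : ∀ a, a ∈ l) (f : K → O → A) :
    (l.map fun a => ∑ o, f a o).prod = ∑ ω : K → O, (l.map fun a => f a (ω a)).prod := by
  let e : Fin l.length ≃ K := hl.getEquivOfForallMemList l hm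
  have he : ∀ i, e i = l.get i := fun i => rfl
  have h1 : ∀ g : K → A, (l.map g) = List.ofFn (fun i => g (e i)) := by
    intro g
    apply List.ext_get
    · simp
    · intro i h1 h2
      simp [he]
  rw [h1, ofFn_sum]
  rw [← (Equiv.arrowCongr e.symm (Equiv.refl O)).sum_comp]
  refine Finset.sum_congr rfl fun ω _ => ?_
  rw [h1]
  congr 1

lemma prod_smul_list {K : Type} (l : List K) (c : K → ℝ) (x : K → A) :
    (l.map fun a => c a • x a).prod = (l.map c).prod • (l.map x).prod := by
  induction l with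
  | nil => simp
  | cons a l ih =>
    simp only [List.map_cons, List.prod_cons, ih]
    rw [smul_mul_smul_comm]

end expand

/-! ## The right regular representation -/

section rep

variable {V : Type} [Fintype V] [DecidableEq V]

/-- Right translation on functions on the group of permutations. -/
noncomputable def Rt (p : Perm V) : (Perm V → ℝ) →L[ℝ] (Perm V → ℝ) :=
  LinearMap.toContinuousLinearMap
    { toFun := fun F g => F (g * p)
      map_add' := fun _ _ => rfl
      map_smul' := fun _ _ => rfl }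

lemma Rt_apply (p : Perm V) (F : Perm V → ℝ) (g : Perm V) : Rt p F g = F (g * p) := rfl

lemma Rt_one : Rt (1 : Perm V) = 1 := by
  ext F g
  simp [Rt_apply]

lemma Rt_mul (p q : Perm V) : Rt (p * q) = Rt p * Rt q := by
  ext F g
  show F (g * (p * q)) = F (g * p * q)
  rw [mul_assoc]

lemma Rt_list {K : Type} (l : List K) (f : K → Perm V) :
    Rt ((l.map f).prod) = (l.map fun a => Rt (f a)).prod := by
  induction l with
  | nil => simp [Rt_one]
  | cons a l ih => simp [Rt_mul, ih]

/-- The generator. -/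
noncomputable def gen (J : V → V → ℝ) : (Perm V → ℝ) →L[ℝ] (Perm V → ℝ) :=
  ∑ x, ∑ y, (J x y / 2) • Rt (swap x y)

lemma gen_pow_apply (J : V → V → ℝ) (g : Perm V) (m : ℕ) : ∀ p : Perm V,
    ((gen J) ^ m) (Pi.single g 1) p = ringSum J m (p⁻¹ * g) := by
  induction m with
  | zero =>
    intro p
    simp only [pow_zero, ringSum]
    show (Pi.single g (1:ℝ) : Perm V → ℝ) p = _
    rw [Pi.single_apply]
    have : (p = g) ↔ (p⁻¹ * g = 1) := by
      constructor
      · rintro rfl; simp
      · intro h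
        have := inv_mul_eq_one.1 h
        exact this
    by_cases h : p = g
    · rw [if_pos h, if_pos (this.1 h)]
    · rw [if_neg h, if_neg (fun h' => h (this.2 h'))]
  | succ m ih =>
    intro p
    rw [pow_succ']
    show (gen J) (((gen J) ^ m) (Pi.single g 1)) p = _
    simp only [ringSum]
    set F := ((gen J) ^ m) (Pi.single g 1) with hF
    have : (gen J) F p = ∑ x, ∑ y, (J x y / 2) * F (p * swap x y) := by
      simp only [gen, _root_.sum_apply, Finset.sum_apply,
        _root_.smul_apply, Pi.smul_apply, smul_eq_mul, Rt_apply]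
    rw [this]
    refine Finset.sum_congr rfl fun x _ => Finset.sum_congr rfl fun y _ => ?_
    rw [ih, mul_inv_rev, Equiv.swap_inv, mul_assoc]

/-- Evaluation of an operator at a function and at the identity. -/
noncomputable def evl (F : Perm V → ℝ) : ((Perm V → ℝ) →L[ℝ] (Perm V → ℝ)) →L[ℝ] ℝ :=
  (ContinuousLinearMap.proj (R := ℝ) (φ := fun _ : Perm V => ℝ) (1 : Perm V)).comp
    (ContinuousLinearMap.apply ℝ (Perm V → ℝ) F)

lemma evl_apply (F : Perm V → ℝ) (X : (Perm V → ℝ) →L[ℝ] (Perm V → ℝ)) : evl F X = X F 1 := rfl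

lemma stirMass_eq (J : V → V → ℝ) (t : ℝ) (g : Perm V) :
    stirMass J t g = (exp (t • gen J)) (Pi.single g 1) 1 := by
  rw [← evl_apply, exp_eq_tsum ℝ]
  simp only
  rw [ContinuousLinearMap.map_tsum _ (expSeries_summable' (𝕂 := ℝ) (t • gen J))]
  unfold stirMass
  refine tsum_congr fun m => ?_
  rw [smul_pow, map_smul, map_smul, evl_apply, gen_pow_apply]
  simp only [smul_eq_mul, inv_one, one_mul]
  ring

lemma sum_stirMass (J : V → V → ℝ) (t : ℝ) (F : Perm V → ℝ) :
    ∑ g, stirMass J t g * F g = (exp (t • gen J)) F 1 := by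
  have hF : F = ∑ g, F g • (Pi.single g (1 : ℝ) : Perm V → ℝ) := by
    funext p
    simp [Finset.sum_apply, Pi.single_apply]
  conv_rhs => rw [hF]
  rw [map_sum, Finset.sum_apply]
  refine Finset.sum_congr rfl fun g _ => ?_
  rw [map_smul, Pi.smul_apply, stirMass_eq, smul_eq_mul, mul_comm]

lemma one_add_gen {M T : ℕ} (h : ℝ) (Jt : Fin T → V → V → ℝ) (a : Fin M × Fin T) :
    (1 : (Perm V → ℝ) →L[ℝ] (Perm V → ℝ)) + h • gen (Jt a.2) =
      ∑ o : Option (V × V), wt h Jt a o • Rt (tau o) := by
  rw [Fintype.sum_option]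
  simp only [wt, tau, one_smul, Rt_one]
  congr 1
  rw [Fintype.sum_prod_type]
  simp only [gen, Finset.smul_sum, smul_smul]
  refine Finset.sum_congr rfl fun x _ => Finset.sum_congr rfl fun y _ => ?_
  congr 1
  ring

lemma slots_prod {A : Type} [Monoid A] (M T : ℕ) (f : Fin T → A) :
    ((slots M T).map fun a => f a.2).prod = (((List.finRange T).map f).prod) ^ M := by
  unfold slots
  rw [List.map_flatMap, List.flatMap_def, List.prod_flatten, List.map_map]
  have : (List.finRange M).map (List.prod ∘ fun i : Fin M =>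
      ((List.finRange T).map fun j => (i, j)).map fun a : Fin M × Fin T => f a.2) =
      List.replicate M ((List.finRange T).map f).prod := by
    apply List.ext_get
    · simp
    · intro i h1 h2
      simp [Function.comp_def]
  rw [this, List.prod_replicate]

lemma slots_nodup (M T : ℕ) : (slots M T).Nodup :=
  List.Nodup.product (List.nodup_finRange M) (List.nodup_finRange T)

lemma slots_mem (M T : ℕ) (a : Fin M × Fin T) : a ∈ slots M T :=
  List.mem_product.2 ⟨List.mem_finRange _, List.mem_finRange _⟩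

lemma slot_expand (M T : ℕ) (h : ℝ) (Jt : Fin T → V → V → ℝ) (F : Perm V → ℝ) :
    ∑ ω : Fin M × Fin T → Option (V × V),
      (∏ a, wt h Jt a (ω a)) * F (prodS (slots M T) (fun _ => True) ω) =
    ((((List.finRange T).map fun j => 1 + h • gen (Jt j)).prod) ^ M) F 1 := by
  rw [← slots_prod M T (fun j => 1 + h • gen (Jt j))]
  have e1 : ((slots M T).map fun a => (1 : (Perm V → ℝ) →L[ℝ] (Perm V → ℝ)) + h • gen (Jt a.2)) =
      (slots M T).map fun a => ∑ o : Option (V × V), wt h Jt a o • Rt (tau o) :=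
    List.map_congr_left fun a _ => one_add_gen h Jt a
  rw [e1, list_sum (slots M T) (slots_nodup M T) (slots_mem M T)
    (fun a o => wt h Jt a o • Rt (tau o)), _root_.sum_apply, Finset.sum_apply]
  refine Finset.sum_congr rfl fun ω _ => ?_
  rw [prod_smul_list (slots M T) (fun a => wt h Jt a (ω a)) (fun a => Rt (tau (ω a))),
    ← Rt_list, _root_.smul_apply, Pi.smul_apply, Rt_apply, one_mul, smul_eq_mul]
  have e2 : (∏ a, wt h Jt a (ω a)) = ((slots M T).map fun a => wt h Jt a (ω a)).prod := by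
    rw [← List.prod_toFinset _ (slots_nodup M T)]
    refine Finset.prod_congr ?_ fun _ _ => rfl
    ext a
    simp [slots_mem M T a]
  rw [e2]
  congr 2
  simp [prodS]

end rep

theorem main : S_trotter := by
  intro V _ _ T Jt t F
  rw [sum_stirMass]
  have hsum : t • gen (fun x y => ∑ j, Jt j x y) =
      ((List.finRange T).map fun j => t • gen (Jt j)).sum := by
    have e1 : ((List.finRange T).map fun j => t • gen (Jt j)).sum = ∑ j, t • gen (Jt j) := by
      rw [← List.sum_toFinset _ (List.nodup_finRange T)]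
      refine Finset.sum_congr ?_ fun _ _ => rfl
      ext a
      simp
    rw [e1, ← Finset.smul_sum]
    congr 1
    simp only [gen]
    conv_rhs => rw [Finset.sum_comm]
    refine Finset.sum_congr rfl fun x _ => ?_
    conv_rhs => rw [Finset.sum_comm]
    refine Finset.sum_congr rfl fun y _ => ?_
    rw [← Finset.sum_smul, Finset.sum_div]
  have h1 := tendsto_list_prod_pow ((List.finRange T).map fun j => t • gen (Jt j))
  rw [← hsum] at h1
  have h2 := ((evl F).continuous.tendsto _).comp h1
  refine (h2.congr fun M => ?_)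
  rw [slot_expand, Function.comp_apply, evl_apply, List.map_map]
  have e : ((fun a : (Perm V → ℝ) →L[ℝ] (Perm V → ℝ) => 1 + ((M : ℝ)⁻¹) • a) ∘
      fun j => t • gen (Jt j)) = fun j => 1 + (t / M) • gen (Jt j) := by
    funext j
    simp only [Function.comp_apply]
    rw [smul_smul]
    congr 2
    ring
  rw [e]

end Pool.Agent.W32.LR
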